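import Mathlib

/-!
# Regular polygons do not minimise the anisotropic Cheeger functional of the disk

For every even `n ≥ 24` there is a centrally symmetric convex polygon with exactly `n` sides (close
to a square) whose value of `J_B` is smaller than that of the regular `n`-gon.
-/

set_option autoImplicit false

noncomputable section

open MeasureTheory Set
open scoped ENNReal

namespace Pool.Agent.Results.MP_4eea03_an.RegularPolygonNotMinimal

/-- the plane -/
abbrev Plane : Type := ℝ × ℝ

/-- the scalar product of the plane -/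
def dot (x y : Plane) : ℝ := x.1 * y.1 + x.2 * y.2

/-- the class `K₂`: non-empty open bounded convex sets, symmetric about the origin -/
structure IsSymBody (K : Set Plane) : Prop where
  nonempty : K.Nonempty
  isOpen : IsOpen K
  isBounded : Bornology.IsBounded K
  convex : Convex ℝ K
  neg_mem : ∀ x ∈ K, -x ∈ K

/-- the polar norm `Φ_K°(x) = sup {x · y : y ∈ K}` -/
def polarNorm (K : Set Plane) (x : Plane) : ℝ := sSup ((fun y => dot x y) '' K)

/-- the polar set `K° = {x : Φ_K°(x) < 1}` -/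
def polarSet (K : Set Plane) : Set Plane := {x | polarNorm K x < 1}

/-- the divergence of a vector field -/
def divergence (X : Plane → Plane) (p : Plane) : ℝ :=
  (fderiv ℝ X p (1, 0)).1 + (fderiv ℝ X p (0, 1)).2

/-- the test fields: `C¹`, compactly supported, with values in the closure of `K` -/
structure IsTestField (K : Set Plane) (X : Plane → Plane) : Prop where
  contDiff : ContDiff ℝ 1 X
  compact : HasCompactSupport X
  mem : ∀ p, X p ∈ closure K

/-- the anisotropic perimeter `P_K(E)` (variational form) -/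
def perimeter (K E : Set Plane) : ℝ≥0∞ :=
  ⨆ (X : Plane → Plane) (_ : IsTestField K X), ENNReal.ofReal (∫ p in E, divergence X p)

/-- the anisotropic Cheeger constant `h_K(Ω)` -/
def cheeger (K Ω : Set Plane) : ℝ≥0∞ :=
  ⨅ (E : Set Plane) (_ : MeasurableSet E ∧ E ⊆ Ω ∧ 0 < volume E), perimeter K E / volume E

/-- the functional `J_Ω[K] = h_K(Ω) |K°|^(1/2)` -/
def J (Ω K : Set Plane) : ℝ≥0∞ := cheeger K Ω * volume (polarSet K) ^ (1 / 2 : ℝ)

/-- the open unit disk `B` -/
def disk : Set Plane := {p | p.1 ^ 2 + p.2 ^ 2 < 1}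

/-- the (open) regular `n`-gon circumscribed about the unit disk -/
def regularPolygon (n : ℕ) : Set Plane :=
  {p | ∀ j : ℕ, j < n →
    dot p (Real.cos (2 * Real.pi * j / n), Real.sin (2 * Real.pi * j / n)) < 1}

/-- the class `P_n`: members of `K₂` that are polygons with exactly `n` sides, that is, whose
closures have exactly `n` extreme points -/
def IsPolygon (n : ℕ) (K : Set Plane) : Prop :=
  IsSymBody K ∧ (extremePoints ℝ (closure K)).Finite ∧ (extremePoints ℝ (closure K)).ncard = n

/-! ### The lower bound for sets containing the disk -/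

/-- cut-off -/
def cut (ε : ℝ) (r : ℝ) : ℝ := Real.smoothTransition ((1 + ε - r) / ε)

theorem cut_nonneg (ε r : ℝ) : 0 ≤ cut ε r := Real.smoothTransition.nonneg _

theorem cut_le_one (ε r : ℝ) : cut ε r ≤ 1 := Real.smoothTransition.le_one _

theorem cut_one {ε r : ℝ} (hε : 0 < ε) (hr : r ≤ 1) : cut ε r = 1 := by
  apply Real.smoothTransition.one_of_one_le
  rw [le_div_iff₀ hε]
  linarith

theorem cut_zero {ε r : ℝ} (hε : 0 < ε) (hr : 1 + ε ≤ r) : cut ε r = 0 := by
  apply Real.smoothTransition.zero_of_nonpos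
  apply div_nonpos_of_nonpos_of_nonneg _ hε.le
  linarith

/-- the radial field -/
def field (ε : ℝ) (p : Plane) : Plane := ((1 / (1 + ε)) * cut ε (p.1 ^ 2 + p.2 ^ 2)) • p

theorem field_contDiff {ε : ℝ} : ContDiff ℝ 1 (field ε) := by
  unfold field cut
  have h1 : ContDiff ℝ 1 (fun p : Plane => (1 + ε - (p.1 ^ 2 + p.2 ^ 2)) / ε) := by
    have h2 : ContDiff ℝ 1 (fun p : Plane => p.1) := contDiff_fst
    have h3 : ContDiff ℝ 1 (fun p : Plane => p.2) := contDiff_snd
    exact (contDiff_const.sub ((h2.pow 2).add (h3.pow 2))).div_const _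
  have h4 : ContDiff ℝ 1 Real.smoothTransition := Real.smoothTransition.contDiff
  exact (contDiff_const.mul (h4.comp h1)).smul contDiff_id

theorem field_compact {ε : ℝ} (hε : 0 < ε) : HasCompactSupport (field ε) := by
  apply HasCompactSupport.of_support_subset_isCompact
    (isCompact_closedBall (0 : Plane) (1 + ε))
  intro p hp
  rw [Function.mem_support] at hp
  rw [mem_closedBall_zero_iff]
  by_contra h
  push Not at h
  apply hp
  have h1 : 1 + ε ≤ p.1 ^ 2 + p.2 ^ 2 := by
    rw [Prod.norm_def, lt_max_iff, Real.norm_eq_abs, Real.norm_eq_abs] at h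
    rcases h with h | h
    · have : (1 + ε) ^ 2 ≤ |p.1| ^ 2 := pow_le_pow_left₀ (by positivity) h.le 2
      rw [sq_abs] at this
      nlinarith [sq_nonneg p.2]
    · have : (1 + ε) ^ 2 ≤ |p.2| ^ 2 := pow_le_pow_left₀ (by positivity) h.le 2
      rw [sq_abs] at this
      nlinarith [sq_nonneg p.1]
  unfold field
  rw [cut_zero hε h1]
  simp

theorem field_mem {ε : ℝ} (hε : 0 < ε) (p : Plane) : field ε p ∈ disk := by
  unfold field disk
  simp only [mem_ofPred_eq, Prod.smul_fst, Prod.smul_snd, smul_eq_mul]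
  rcases le_or_gt (1 + ε) (p.1 ^ 2 + p.2 ^ 2) with h | h
  · rw [cut_zero hε h]
    simp
  · have h1 := cut_nonneg ε (p.1 ^ 2 + p.2 ^ 2)
    have h2 := cut_le_one ε (p.1 ^ 2 + p.2 ^ 2)
    set c := cut ε (p.1 ^ 2 + p.2 ^ 2)
    have h3 : c ^ 2 ≤ 1 := by nlinarith
    have h4 : (1 / (1 + ε) * c * p.1) ^ 2 + (1 / (1 + ε) * c * p.2) ^ 2
        = (1 / (1 + ε)) ^ 2 * (c ^ 2 * (p.1 ^ 2 + p.2 ^ 2)) := by ring
    rw [h4]
    have h5 : c ^ 2 * (p.1 ^ 2 + p.2 ^ 2) < 1 + ε := by
      have : c ^ 2 * (p.1 ^ 2 + p.2 ^ 2) ≤ 1 * (p.1 ^ 2 + p.2 ^ 2) :=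
        mul_le_mul_of_nonneg_right h3 (by positivity)
      linarith
    have h6 : (1 / (1 + ε)) ^ 2 * (1 + ε) < 1 := by
      have : (1 / (1 + ε)) ^ 2 * (1 + ε) = 1 / (1 + ε) := by field_simp
      rw [this, div_lt_one (by positivity)]
      linarith
    calc (1 / (1 + ε)) ^ 2 * (c ^ 2 * (p.1 ^ 2 + p.2 ^ 2))
        ≤ (1 / (1 + ε)) ^ 2 * (1 + ε) := by
          apply mul_le_mul_of_nonneg_left h5.le (by positivity)
      _ < 1 := h6

theorem disk_isOpen : IsOpen disk := by
  unfold disk
  exact isOpen_lt (by fun_prop) continuous_const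

theorem field_div {ε : ℝ} (hε : 0 < ε) {p : Plane} (hp : p ∈ disk) :
    divergence (field ε) p = 2 * (1 / (1 + ε)) := by
  have h1 : field ε =ᶠ[nhds p] fun q => (1 / (1 + ε)) • q := by
    filter_upwards [disk_isOpen.mem_nhds hp] with q hq
    unfold field
    rw [cut_one hε (le_of_lt hq), mul_one]
  have h2 : HasFDerivAt (fun q : Plane => (1 / (1 + ε)) • q)
      ((1 / (1 + ε)) • ContinuousLinearMap.id ℝ Plane) p :=
    (hasFDerivAt_id p).const_smul (1 / (1 + ε))
  have h3 := (h2.congr_of_eventuallyEq h1).fderiv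
  unfold divergence
  rw [h3]
  simp
  ring

theorem perimeter_ge {K : Set Plane} (hK : disk ⊆ K) {ε : ℝ} (hε : 0 < ε) {E : Set Plane}
    (hE : MeasurableSet E) (hE2 : E ⊆ disk) :
    ENNReal.ofReal (2 * (1 / (1 + ε))) * volume E ≤ perimeter K E := by
  have h0 : IsTestField K (field ε) :=
    ⟨field_contDiff, field_compact hε, fun p => subset_closure (hK (field_mem hε p))⟩
  have hfin : volume E ≠ ∞ := by
    have h1 : E ⊆ Metric.closedBall (0 : Plane) 1 := by
      intro p hp
      have := hE2 hp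
      unfold disk at this
      simp only [mem_ofPred_eq] at this
      rw [mem_closedBall_zero_iff, Prod.norm_def, max_le_iff, Real.norm_eq_abs, Real.norm_eq_abs]
      constructor
      · apply abs_le_of_sq_le_sq _ zero_le_one
        nlinarith [sq_nonneg p.2]
      · apply abs_le_of_sq_le_sq _ zero_le_one
        nlinarith [sq_nonneg p.1]
    exact ((measure_mono h1).trans_lt (isCompact_closedBall (0 : Plane) 1).measure_lt_top).ne
  have h2 : ∫ p in E, divergence (field ε) p = (2 * (1 / (1 + ε))) * (volume E).toReal := by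
    rw [setIntegral_congr_fun hE (g := fun _ => 2 * (1 / (1 + ε)))
      (fun p hp => field_div hε (hE2 hp))]
    rw [setIntegral_const, smul_eq_mul, mul_comm]
    rfl
  calc ENNReal.ofReal (2 * (1 / (1 + ε))) * volume E
      = ENNReal.ofReal (∫ p in E, divergence (field ε) p) := by
        rw [h2, ENNReal.ofReal_mul (p := 2 * (1 / (1 + ε))) (by positivity),
          ENNReal.ofReal_toReal hfin]
    _ ≤ perimeter K E := le_iSup₂_of_le (field ε) h0 le_rfl

theorem cheeger_ge {K : Set Plane} (hK : disk ⊆ K) {ε : ℝ} (hε : 0 < ε) :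
    ENNReal.ofReal (2 * (1 / (1 + ε))) ≤ cheeger K disk := by
  unfold cheeger
  refine le_iInf₂ fun E hE => ?_
  obtain ⟨h1, h2, h3⟩ := hE
  have hfin : volume E ≠ ∞ := by
    have h1 : E ⊆ Metric.closedBall (0 : Plane) 1 := by
      intro p hp
      have := h2 hp
      unfold disk at this
      simp only [mem_ofPred_eq] at this
      rw [mem_closedBall_zero_iff, Prod.norm_def, max_le_iff, Real.norm_eq_abs, Real.norm_eq_abs]
      constructor
      · apply abs_le_of_sq_le_sq _ zero_le_one
        nlinarith [sq_nonneg p.2]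
      · apply abs_le_of_sq_le_sq _ zero_le_one
        nlinarith [sq_nonneg p.1]
    exact ((measure_mono h1).trans_lt (isCompact_closedBall (0 : Plane) 1).measure_lt_top).ne
  rw [ENNReal.le_div_iff_mul_le (Or.inl h3.ne') (Or.inl hfin)]
  exact perimeter_ge hK hε h1 h2

/-! ### The regular polygon -/

theorem disk_subset_regular (n : ℕ) : disk ⊆ regularPolygon n := by
  intro p hp j _
  unfold disk at hp
  simp only [mem_ofPred_eq] at hp
  unfold dot
  simp only
  set θ := 2 * Real.pi * j / n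
  have h1 := Real.cos_sq_add_sin_sq θ
  nlinarith [sq_nonneg (p.1 - Real.cos θ), sq_nonneg (p.2 - Real.sin θ)]

theorem regular_subset {n : ℕ} (hn : 3 ≤ n) {p : Plane} (hp : p ∈ regularPolygon n) :
    (p.1 ^ 2 + p.2 ^ 2) * Real.cos (Real.pi / n) ^ 2 ≤ 1 := by
  have hn0 : (0 : ℝ) < n := by positivity
  have hn3 : (3 : ℝ) ≤ n := by exact_mod_cast hn
  have hπ := Real.pi_pos
  set z : ℂ := ⟨p.1, p.2⟩ with hz
  set r := ‖z‖ with hr
  set θ := Complex.arg z with hθ
  have hr0 : 0 ≤ r := norm_nonneg _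
  have h1 : p.1 = r * Real.cos θ := (Complex.norm_mul_cos_arg z).symm
  have h2 : p.2 = r * Real.sin θ := (Complex.norm_mul_sin_arg z).symm
  have h3 : p.1 ^ 2 + p.2 ^ 2 = r ^ 2 := by
    rw [h1, h2]
    have := Real.cos_sq_add_sin_sq θ
    nlinarith
  set k : ℤ := round (θ * n / (2 * Real.pi)) with hk
  have h4 : |θ * n / (2 * Real.pi) - k| ≤ 1 / 2 := abs_sub_round _
  have h5 : |θ - 2 * Real.pi * k / n| ≤ Real.pi / n := by
    have h6 : θ - 2 * Real.pi * k / n = (θ * n / (2 * Real.pi) - k) * (2 * Real.pi / n) := by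
      field_simp
    rw [h6, abs_mul, abs_of_pos (by positivity : (0 : ℝ) < 2 * Real.pi / n)]
    calc |θ * n / (2 * Real.pi) - k| * (2 * Real.pi / n) ≤ 1 / 2 * (2 * Real.pi / n) :=
          mul_le_mul_of_nonneg_right h4 (by positivity)
      _ = Real.pi / n := by ring
  -- reduce k modulo n
  set j : ℕ := (k % n).toNat with hj
  have hjn : (j : ℤ) = k % n := Int.toNat_of_nonneg (Int.emod_nonneg _ (by omega))
  have hjlt : j < n := by
    have := Int.emod_lt_of_pos k (by omega : (0 : ℤ) < n)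
    omega
  have hkj : (k : ℝ) = j + n * ((k / n : ℤ) : ℝ) := by
    have := Int.emod_add_mul_ediv k n
    rw [← hjn] at this
    exact_mod_cast this.symm
  have h7 := hp j hjlt
  unfold dot at h7
  simp only at h7
  have hcos : Real.cos (2 * Real.pi * j / n) = Real.cos (2 * Real.pi * k / n) := by
    have : 2 * Real.pi * k / n = 2 * Real.pi * j / n + ((k / n : ℤ) : ℝ) * (2 * Real.pi) := by
      rw [hkj]; field_simp
    rw [this, Real.cos_add_int_mul_two_pi]
  have hsin : Real.sin (2 * Real.pi * j / n) = Real.sin (2 * Real.pi * k / n) := by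
    have : 2 * Real.pi * k / n = 2 * Real.pi * j / n + ((k / n : ℤ) : ℝ) * (2 * Real.pi) := by
      rw [hkj]; field_simp
    rw [this, Real.sin_add_int_mul_two_pi]
  rw [hcos, hsin, h1, h2] at h7
  have h8 : r * Real.cos (θ - 2 * Real.pi * k / n) < 1 := by
    rw [Real.cos_sub]
    nlinarith
  have h9 : Real.cos (Real.pi / n) ≤ Real.cos (θ - 2 * Real.pi * k / n) := by
    rw [← Real.cos_abs (θ - 2 * Real.pi * k / n)]
    apply Real.cos_le_cos_of_nonneg_of_le_pi (abs_nonneg _) _ h5
    rw [div_le_iff₀ hn0]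
    nlinarith
  have h10 : 0 ≤ Real.cos (Real.pi / n) := by
    apply Real.cos_nonneg_of_neg_pi_div_two_le_of_le
    · have : 0 ≤ Real.pi / n := by positivity
      linarith
    · rw [div_le_div_iff₀ hn0 two_pos]
      nlinarith
  have h11 : r * Real.cos (Real.pi / n) ≤ 1 :=
    (mul_le_mul_of_nonneg_left h9 hr0).trans h8.le
  rw [h3, ← mul_pow]
  exact pow_le_one₀ (mul_nonneg hr0 h10) h11

theorem volume_disk (r : ℝ) (hr : 0 ≤ r) :
    volume {p : Plane | p.1 ^ 2 + p.2 ^ 2 < r ^ 2} = ENNReal.ofReal (Real.pi * r ^ 2) := by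
  have h1 := Complex.volume_preserving_equiv_real_prod
  have h2 : {p : Plane | p.1 ^ 2 + p.2 ^ 2 < r ^ 2} =
      Complex.measurableEquivRealProd.symm ⁻¹' (Metric.ball (0 : ℂ) r) := by
    ext p
    simp only [mem_ofPred_eq, mem_preimage, mem_ball_zero_iff]
    rw [← abs_of_nonneg (norm_nonneg (Complex.measurableEquivRealProd.symm p)),
      ← abs_of_nonneg hr, ← sq_lt_sq, sq_abs, Complex.sq_norm, Complex.normSq_apply]
    show _ ↔ p.1 * p.1 + p.2 * p.2 < r ^ 2
    constructor <;> intro h <;> nlinarith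
  rw [h2, h1.symm.measure_preimage measurableSet_ball.nullMeasurableSet, Complex.volume_ball,
    ← ENNReal.ofReal_pow hr, mul_comm, ENNReal.ofReal_mul Real.pi_pos.le]
  congr 1
  rw [← ENNReal.ofReal_coe_nnreal]
  rfl

theorem disk_bounded_abs {p : Plane} (hp : p ∈ disk) : |p.1| < 1 ∧ |p.2| < 1 := by
  unfold disk at hp
  simp only [mem_ofPred_eq] at hp
  constructor
  · apply abs_lt_of_sq_lt_sq _ zero_le_one
    nlinarith [sq_nonneg p.2]
  · apply abs_lt_of_sq_lt_sq _ zero_le_one
    nlinarith [sq_nonneg p.1]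

theorem polar_regular {n : ℕ} (hn : 3 ≤ n) :
    {p : Plane | p.1 ^ 2 + p.2 ^ 2 < Real.cos (Real.pi / n) ^ 2} ⊆
      polarSet (regularPolygon n) := by
  intro p hp
  simp only [mem_ofPred_eq] at hp
  unfold polarSet polarNorm
  simp only [mem_ofPred_eq]
  have hn0 : (0 : ℝ) < n := by positivity
  have hn3 : (3 : ℝ) ≤ n := by exact_mod_cast hn
  have hc : 0 < Real.cos (Real.pi / n) := by
    apply Real.cos_pos_of_mem_Ioo
    constructor
    · have : 0 < Real.pi / n := by positivity
      linarith [Real.pi_pos]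
    · rw [div_lt_div_iff₀ hn0 two_pos]
      nlinarith [Real.pi_pos]
  set c := Real.cos (Real.pi / n) with hcdef
  set R := Real.sqrt (p.1 ^ 2 + p.2 ^ 2) / c with hR
  have hR1 : R < 1 := by
    rw [hR, div_lt_one hc]
    calc Real.sqrt (p.1 ^ 2 + p.2 ^ 2) < Real.sqrt (c ^ 2) :=
          Real.sqrt_lt_sqrt (by positivity) hp
      _ = c := Real.sqrt_sq hc.le
  have h1 : ∀ y ∈ (fun y => dot p y) '' regularPolygon n, y ≤ R := by
    rintro _ ⟨y, hy, rfl⟩
    have h2 := regular_subset hn hy
    rw [← hcdef] at h2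
    simp only
    rw [hR, le_div_iff₀ hc]
    apply Real.le_sqrt_of_sq_le
    unfold dot
    have h3 : (p.1 * y.1 + p.2 * y.2) ^ 2 ≤ (p.1 ^ 2 + p.2 ^ 2) * (y.1 ^ 2 + y.2 ^ 2) := by
      nlinarith [sq_nonneg (p.1 * y.2 - p.2 * y.1)]
    calc ((p.1 * y.1 + p.2 * y.2) * c) ^ 2 = (p.1 * y.1 + p.2 * y.2) ^ 2 * c ^ 2 := by ring
      _ ≤ ((p.1 ^ 2 + p.2 ^ 2) * (y.1 ^ 2 + y.2 ^ 2)) * c ^ 2 :=
          mul_le_mul_of_nonneg_right h3 (by positivity)
      _ = (p.1 ^ 2 + p.2 ^ 2) * ((y.1 ^ 2 + y.2 ^ 2) * c ^ 2) := by ring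
      _ ≤ (p.1 ^ 2 + p.2 ^ 2) * 1 := mul_le_mul_of_nonneg_left h2 (by positivity)
      _ = p.1 ^ 2 + p.2 ^ 2 := mul_one _
  have hne : ((fun y => dot p y) '' regularPolygon n).Nonempty := by
    refine ⟨_, 0, disk_subset_regular n ?_, rfl⟩
    unfold disk
    simp
  exact (csSup_le hne h1).trans_lt hR1

theorem J_regular_ge {n : ℕ} (hn : 3 ≤ n) {ε : ℝ} (hε : 0 < ε) :
    ENNReal.ofReal (2 * (1 / (1 + ε))) *
      ENNReal.ofReal (Real.pi * Real.cos (Real.pi / n) ^ 2) ^ (1 / 2 : ℝ) ≤
      J disk (regularPolygon n) := by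
  unfold J
  have hn0 : (0 : ℝ) < n := by positivity
  have hn3 : (3 : ℝ) ≤ n := by exact_mod_cast hn
  have hc : 0 < Real.cos (Real.pi / n) := by
    apply Real.cos_pos_of_mem_Ioo
    constructor
    · have : 0 < Real.pi / n := by positivity
      linarith [Real.pi_pos]
    · rw [div_lt_div_iff₀ hn0 two_pos]
      nlinarith [Real.pi_pos]
  apply mul_le_mul' (cheeger_ge (disk_subset_regular n) hε)
  apply ENNReal.rpow_le_rpow _ (by norm_num)
  rw [← volume_disk _ hc.le]
  exact measure_mono (polar_regular hn)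

/-! ### The perimeter of the test set -/

/-- the test set -/
def testSet (t : ℝ) : Set Plane := {p | p.1 ^ 2 + p.2 ^ 2 < 1 ∧ |p.1| < t ∧ |p.2| < t}

theorem testSet_isOpen (t : ℝ) : IsOpen (testSet t) := by
  have h1 : IsOpen {p : Plane | p.1 ^ 2 + p.2 ^ 2 < 1} :=
    isOpen_lt (by fun_prop) continuous_const
  have h2 : IsOpen {p : Plane | |p.1| < t} := isOpen_lt (by fun_prop) continuous_const
  have h3 : IsOpen {p : Plane | |p.2| < t} := isOpen_lt (by fun_prop) continuous_const
  exact h1.inter (h2.inter h3)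

theorem section_eq {t : ℝ} {x : ℝ} (hx : |x| < t) :
    {y : ℝ | (x, y) ∈ testSet t} =
      Ioo (-(min t (Real.sqrt (1 - x ^ 2)))) (min t (Real.sqrt (1 - x ^ 2))) := by
  ext y
  unfold testSet
  simp only [mem_ofPred_eq, mem_Ioo]
  rw [← abs_lt, lt_min_iff, Real.lt_sqrt (abs_nonneg _), sq_abs]
  constructor
  · rintro ⟨h1, h2, h3⟩
    exact ⟨h3, by linarith⟩
  · rintro ⟨h1, h2⟩
    exact ⟨by linarith, hx, h1⟩

theorem hasDeriv_section {u : Plane → ℝ} (hu : ContDiff ℝ 1 u) (x y : ℝ) :
    HasDerivAt (fun y => u (x, y)) (fderiv ℝ u (x, y) (0, 1)) y := by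
  have h1 : HasFDerivAt u (fderiv ℝ u (x, y)) (x, y) :=
    (hu.differentiable one_ne_zero _).hasFDerivAt
  have h2 : HasDerivAt (fun y : ℝ => ((x, y) : Plane)) (0, 1) y :=
    (hasDerivAt_const y x).prodMk (hasDerivAt_id y)
  exact h1.comp_hasDerivAt y h2

theorem integral_deriv_le {u : Plane → ℝ} (hu : ContDiff ℝ 1 u) (hc : HasCompactSupport u)
    {m : ℝ} (hm : ∀ p, |u p| ≤ m) {t : ℝ} (ht0 : 0 < t) :
    ∫ p in testSet t, fderiv ℝ u p (0, 1) ≤ 4 * t * m := by
  have hm0 : 0 ≤ m := (abs_nonneg _).trans (hm 0)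
  have hcont : Continuous fun p : Plane => fderiv ℝ u p (0, 1) :=
    (hu.continuous_fderiv one_ne_zero).clm_apply continuous_const
  have hcs : HasCompactSupport fun p : Plane => fderiv ℝ u p (0, 1) :=
    (hc.fderiv (𝕜 := ℝ)).comp_left (g := fun L : Plane →L[ℝ] ℝ => L (0, 1)) (by simp)
  have hint : Integrable (fun p : Plane => fderiv ℝ u p (0, 1)) :=
    hcont.integrable_of_hasCompactSupport hcs
  have hE : MeasurableSet (testSet t) := (testSet_isOpen t).measurableSet
  rw [← integral_indicator hE]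
  have hint2 : Integrable ((testSet t).indicator fun p : Plane => fderiv ℝ u p (0, 1))
      ((volume : Measure ℝ).prod volume) := hint.indicator hE
  rw [Measure.volume_eq_prod, integral_prod _ hint2]
  have h1 : ∀ x : ℝ, ∫ y, (testSet t).indicator (fun p : Plane => fderiv ℝ u p (0, 1)) (x, y) ≤
      (Ioo (-t) t).indicator (fun _ => 2 * m) x := by
    intro x
    by_cases hx : |x| < t
    · rw [indicator_of_mem (show x ∈ Ioo (-t) t from abs_lt.1 hx)]
      set b := min t (Real.sqrt (1 - x ^ 2)) with hb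
      have hb0 : 0 ≤ b := le_min ht0.le (Real.sqrt_nonneg _)
      have h2 : (fun y => (testSet t).indicator (fun p : Plane => fderiv ℝ u p (0, 1)) (x, y)) =
          (Ioo (-b) b).indicator (fun y => fderiv ℝ u (x, y) (0, 1)) := by
        ext y
        rw [hb, ← section_eq hx]
        rfl
      rw [h2, integral_indicator measurableSet_Ioo, ← integral_Ioc_eq_integral_Ioo,
        ← intervalIntegral.integral_of_le (by linarith),
        intervalIntegral.integral_eq_sub_of_hasDerivAt
          (fun y _ => hasDeriv_section hu x y)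
          ((hcont.comp (by fun_prop : Continuous fun y : ℝ => ((x, y) : Plane))).intervalIntegrable
            _ _)]
      have h3 := abs_le.1 (hm (x, b))
      have h4 := abs_le.1 (hm (x, -b))
      linarith
    · rw [indicator_of_notMem (show x ∉ Ioo (-t) t from fun h => hx (abs_lt.2 h))]
      have h2 : (fun y => (testSet t).indicator (fun p : Plane => fderiv ℝ u p (0, 1)) (x, y)) =
          fun _ => 0 := by
        ext y
        apply indicator_of_notMem
        intro h
        exact hx h.2.1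
      rw [h2, integral_zero]
  calc ∫ x, ∫ y, (testSet t).indicator (fun p : Plane => fderiv ℝ u p (0, 1)) (x, y)
      ≤ ∫ x, (Ioo (-t) t).indicator (fun _ => 2 * m) x := by
        apply integral_mono hint2.integral_prod_left _ h1
        exact (integrable_indicator_iff measurableSet_Ioo).2
          (integrableOn_const (by simp) enorm_ne_top)
    _ = 4 * t * m := by
        rw [integral_indicator measurableSet_Ioo, setIntegral_const, smul_eq_mul,
          Real.volume_real_Ioo_of_le (by linarith)]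
        ring

theorem integral_deriv_le' {u : Plane → ℝ} (hu : ContDiff ℝ 1 u) (hc : HasCompactSupport u)
    {m : ℝ} (hm : ∀ p, |u p| ≤ m) {t : ℝ} (ht0 : 0 < t) :
    ∫ p in testSet t, fderiv ℝ u p (1, 0) ≤ 4 * t * m := by
  have hsw : ContDiff ℝ 1 (Prod.swap : Plane → Plane) := contDiff_snd.prodMk contDiff_fst
  have h1 : ContDiff ℝ 1 (u ∘ Prod.swap) := hu.comp hsw
  have h2 : HasCompactSupport (u ∘ Prod.swap) :=
    hc.comp_homeomorph (Homeomorph.prodComm ℝ ℝ)
  have h3 := integral_deriv_le h1 h2 (m := m) (fun p => hm _) ht0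
  have h4 : ∀ p : Plane, fderiv ℝ (u ∘ Prod.swap) p (0, 1) = fderiv ℝ u p.swap (1, 0) := by
    intro p
    have h5 : HasFDerivAt u (fderiv ℝ u p.swap) p.swap :=
      (hu.differentiable one_ne_zero _).hasFDerivAt
    have h6 : HasFDerivAt (Prod.swap : Plane → Plane)
        ((ContinuousLinearEquiv.prodComm ℝ ℝ ℝ : Plane ≃L[ℝ] Plane) : Plane →L[ℝ] Plane) p :=
      (ContinuousLinearEquiv.prodComm ℝ ℝ ℝ).hasFDerivAt
    rw [(h5.comp p h6).fderiv]
    rfl
  have h7 : ∫ p in testSet t, fderiv ℝ (u ∘ Prod.swap) p (0, 1) =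
      ∫ p in testSet t, fderiv ℝ u p (1, 0) := by
    simp_rw [h4]
    have h8 : (Prod.swap : Plane → Plane) ⁻¹' testSet t = testSet t := by
      ext p
      unfold testSet
      simp only [mem_preimage, mem_ofPred_eq, Prod.fst_swap, Prod.snd_swap]
      constructor <;> rintro ⟨a, b, c⟩ <;> exact ⟨by linarith, c, b⟩
    have h9 := (Measure.measurePreserving_swap (μ := (volume : Measure ℝ))
      (ν := (volume : Measure ℝ))).setIntegral_preimage_emb
        (MeasurableEquiv.prodComm (α := ℝ) (β := ℝ)).measurableEmbedding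
        (fun p : Plane => fderiv ℝ u p (1, 0)) (testSet t)
    rw [h8] at h9
    exact h9
  rw [← h7]
  exact h3

theorem perimeter_le {K : Set Plane} {m : ℝ} (hK : ∀ p ∈ closure K, |p.1| ≤ m ∧ |p.2| ≤ m)
    {t : ℝ} (ht0 : 0 < t) : perimeter K (testSet t) ≤ ENNReal.ofReal (8 * t * m) := by
  unfold perimeter
  refine iSup₂_le fun X hX => ENNReal.ofReal_le_ofReal ?_
  have h1 : ContDiff ℝ 1 fun p => (X p).1 := contDiff_fst.comp hX.contDiff
  have h2 : ContDiff ℝ 1 fun p => (X p).2 := contDiff_snd.comp hX.contDiff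
  have c1 : HasCompactSupport fun p => (X p).1 := hX.compact.comp_left (g := Prod.fst) rfl
  have c2 : HasCompactSupport fun p => (X p).2 := hX.compact.comp_left (g := Prod.snd) rfl
  have h3 : ∀ p, divergence X p =
      fderiv ℝ (fun p => (X p).1) p (1, 0) + fderiv ℝ (fun p => (X p).2) p (0, 1) := by
    intro p
    have h4 : HasFDerivAt X (fderiv ℝ X p) p :=
      (hX.contDiff.differentiable one_ne_zero _).hasFDerivAt
    rw [h4.fst.fderiv, h4.snd.fderiv]
    rfl
  have i1 : IntegrableOn (fun p => fderiv ℝ (fun p => (X p).1) p (1, 0)) (testSet t) := by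
    apply Integrable.integrableOn
    apply Continuous.integrable_of_hasCompactSupport
    · exact (h1.continuous_fderiv one_ne_zero).clm_apply continuous_const
    · exact (c1.fderiv (𝕜 := ℝ)).comp_left (g := fun L : Plane →L[ℝ] ℝ => L (1, 0)) (by simp)
  have i2 : IntegrableOn (fun p => fderiv ℝ (fun p => (X p).2) p (0, 1)) (testSet t) := by
    apply Integrable.integrableOn
    apply Continuous.integrable_of_hasCompactSupport
    · exact (h2.continuous_fderiv one_ne_zero).clm_apply continuous_const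
    · exact (c2.fderiv (𝕜 := ℝ)).comp_left (g := fun L : Plane →L[ℝ] ℝ => L (0, 1)) (by simp)
  simp_rw [h3]
  rw [integral_add i1 i2]
  have h5 := integral_deriv_le' h1 c1 (fun p => (hK _ (hX.mem p)).1) ht0
  have h6 := integral_deriv_le h2 c2 (fun p => (hK _ (hX.mem p)).2) ht0
  linarith

/-! ### The area of the test set -/

/-- a polynomial above `√(1 - x²)` -/
def gg (x : ℝ) : ℝ := (1 - x ^ 2 + (27 / 100) ^ 2) / (2 * (27 / 100))

theorem gg_lt {x y : ℝ} (h : x ^ 2 + y ^ 2 < 1) : |y| < gg x := by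
  unfold gg
  rw [lt_div_iff₀ (by norm_num)]
  have h1 : |y| ^ 2 = y ^ 2 := sq_abs y
  nlinarith [sq_nonneg (|y| - 27 / 100)]

/-- the cap -/
def cap : Set Plane := {p | p.1 ^ 2 + p.2 ^ 2 < 1 ∧ 23 / 25 ≤ |p.1|}

theorem volume_cap : volume cap ≤ ENNReal.ofReal (0.0894) := by
  have h1 : cap ⊆ regionBetween (fun x => -gg x) gg (Icc (-1) (-(23 / 25)) ∪ Icc (23 / 25) 1) := by
    rintro ⟨x, y⟩ ⟨h1, h2⟩
    simp only at h1 h2
    refine ⟨?_, ?_⟩
    · have h3 : |x| ≤ 1 := abs_le_of_sq_le_sq (by nlinarith [sq_nonneg y]) zero_le_one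
      rcases le_abs.1 h2 with h | h
      · right; exact ⟨h, (abs_le.1 h3).2⟩
      · left; exact ⟨(abs_le.1 h3).1, by linarith⟩
    · exact abs_lt.1 (gg_lt h1)
  refine (measure_mono h1).trans ?_
  have hcont : Continuous gg := by unfold gg; fun_prop
  have hi : ∀ a b : ℝ, IntegrableOn gg (Icc a b) := fun a b =>
    hcont.continuousOn.integrableOn_Icc
  have hi2 : IntegrableOn gg (Icc (-1) (-(23 / 25)) ∪ Icc (23 / 25) 1) := (hi _ _).union (hi _ _)
  have hi3 : IntegrableOn (fun x => -gg x) (Icc (-1) (-(23 / 25)) ∪ Icc (23 / 25) 1) := hi2.neg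
  rw [Measure.volume_eq_prod, volume_regionBetween_eq_integral hi3 hi2
    (measurableSet_Icc.union measurableSet_Icc)]
  · apply ENNReal.ofReal_le_ofReal
    have h2 : (fun y => (gg - fun x => -gg x) y) = fun y => 2 * gg y := by
      ext y; simp only [Pi.sub_apply]; ring
    rw [h2]
    have hd : Disjoint (Icc (-1 : ℝ) (-(23 / 25))) (Icc (23 / 25) 1) := by
      rw [Set.disjoint_left]
      rintro x ⟨_, h3⟩ ⟨h4, _⟩
      linarith
    rw [setIntegral_union hd measurableSet_Icc ((hi _ _).const_mul 2) ((hi _ _).const_mul 2),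
      integral_Icc_eq_integral_Ioc, integral_Icc_eq_integral_Ioc,
      ← intervalIntegral.integral_of_le (by norm_num),
      ← intervalIntegral.integral_of_le (by norm_num)]
    have h3 : ∀ a b : ℝ, ∫ x in a..b, 2 * gg x =
        (b - a) * (1 + (27 / 100) ^ 2) / (27 / 100) - (b ^ 3 - a ^ 3) / 3 / (27 / 100) := by
      intro a b
      have h4 : ∀ x : ℝ, 2 * gg x = (1 + (27 / 100) ^ 2) / (27 / 100) - x ^ 2 / (27 / 100) := by
        intro x; unfold gg; ring
      simp_rw [h4]
      rw [intervalIntegral.integral_sub (by simp)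
        ((by fun_prop : Continuous fun x : ℝ => x ^ 2 / (27 / 100)).intervalIntegrable _ _)]
      rw [intervalIntegral.integral_const, intervalIntegral.integral_div, integral_pow]
      simp only [smul_eq_mul]
      norm_num
      ring
    rw [h3, h3]
    norm_num
  · intro x hx
    have h3 : x ^ 2 ≤ 1 := by
      rcases hx with h | h
      · nlinarith [h.1, h.2]
      · nlinarith [h.1, h.2]
    have h4 : 0 ≤ gg x := by
      unfold gg
      apply div_nonneg _ (by norm_num)
      nlinarith
    linarith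

theorem volume_cap' : volume {p : Plane | p.1 ^ 2 + p.2 ^ 2 < 1 ∧ 23 / 25 ≤ |p.2|} ≤
    ENNReal.ofReal (0.0894) := by
  have h1 : {p : Plane | p.1 ^ 2 + p.2 ^ 2 < 1 ∧ 23 / 25 ≤ |p.2|} =
      (MeasurableEquiv.prodComm (α := ℝ) (β := ℝ)) ⁻¹' cap := by
    ext p
    unfold cap
    simp only [mem_preimage, mem_ofPred_eq]
    show _ ↔ p.2 ^ 2 + p.1 ^ 2 < 1 ∧ 23 / 25 ≤ |p.2|
    rw [add_comm]
  have h2 : MeasurePreserving (MeasurableEquiv.prodComm (α := ℝ) (β := ℝ))
      (volume : Measure Plane) volume :=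
    Measure.measurePreserving_swap (μ := (volume : Measure ℝ)) (ν := (volume : Measure ℝ))
  rw [h1, h2.measure_preimage_equiv]
  exact volume_cap

theorem volume_testSet : ENNReal.ofReal 2.9627 ≤ volume (testSet (23 / 25)) := by
  have h1 : {p : Plane | p.1 ^ 2 + p.2 ^ 2 < 1 ^ 2} ⊆ (testSet (23 / 25) ∪ cap) ∪
      {p : Plane | p.1 ^ 2 + p.2 ^ 2 < 1 ∧ 23 / 25 ≤ |p.2|} := by
    intro p hp
    simp only [mem_ofPred_eq, one_pow] at hp
    by_cases h1 : |p.1| < 23 / 25
    · by_cases h2 : |p.2| < 23 / 25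
      · left; left; exact ⟨hp, h1, h2⟩
      · right; exact ⟨hp, not_lt.1 h2⟩
    · left; right; exact ⟨hp, not_lt.1 h1⟩
  have h2 := (measure_mono (μ := (volume : Measure Plane)) h1).trans
    ((measure_union_le _ _).trans (add_le_add (measure_union_le _ _) le_rfl))
  rw [volume_disk 1 zero_le_one] at h2
  have h3 : ENNReal.ofReal (Real.pi * 1 ^ 2) ≤
      volume (testSet (23 / 25)) + ENNReal.ofReal 0.0894 + ENNReal.ofReal 0.0894 :=
    h2.trans (add_le_add (add_le_add le_rfl volume_cap) volume_cap')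
  have h4 : ENNReal.ofReal 2.9627 + ENNReal.ofReal 0.0894 + ENNReal.ofReal 0.0894 ≤
      volume (testSet (23 / 25)) + ENNReal.ofReal 0.0894 + ENNReal.ofReal 0.0894 := by
    refine le_trans ?_ h3
    rw [← ENNReal.ofReal_add (by norm_num) (by norm_num),
      ← ENNReal.ofReal_add (by norm_num) (by norm_num)]
    apply ENNReal.ofReal_le_ofReal
    have := Real.pi_gt_d4
    norm_num at this ⊢
    linarith
  rw [ENNReal.add_le_add_iff_right ENNReal.ofReal_ne_top,
    ENNReal.add_le_add_iff_right ENNReal.ofReal_ne_top] at h4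
  exact h4

/-! ### Polygons near the square -/

/-- the abscissae -/
def absc (m : ℕ) (j : ℕ) : ℝ := -1 + 2 * j / (m - 1)

/-- the points on the upper arc -/
def top (δ x : ℝ) : Plane := (x, 1 + δ * (1 - x ^ 2))

/-- the vertices -/
def verts (δ : ℝ) (m : ℕ) : Set Plane :=
  ((fun j => top δ (absc m j)) '' Iio m) ∪ ((fun j => -top δ (absc m j)) '' Iio m)

theorem absc_mem {m j : ℕ} (hm : 2 ≤ m) (hj : j < m) : |absc m j| ≤ 1 := by
  unfold absc
  have h1 : (2 : ℝ) ≤ m := by exact_mod_cast hm
  have h2 : (j : ℝ) ≤ m - 1 := by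
    have : (j : ℝ) + 1 ≤ m := by exact_mod_cast hj
    linarith
  have h3 : (0 : ℝ) ≤ j := Nat.cast_nonneg _
  have h4 : 2 * (j : ℝ) / (m - 1) ≤ 2 := by
    rw [div_le_iff₀ (by linarith)]
    linarith
  have h5 : 0 ≤ 2 * (j : ℝ) / (m - 1) := div_nonneg (by positivity) (by linarith)
  rw [abs_le]
  constructor <;> linarith

theorem absc_inj {m j k : ℕ} (hm : 2 ≤ m) (h : absc m j = absc m k) : j = k := by
  unfold absc at h
  have h1 : (2 : ℝ) ≤ m := by exact_mod_cast hm
  have h2 : 2 * (j : ℝ) / (m - 1) = 2 * k / (m - 1) := by linarith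
  rw [div_left_inj' (by linarith)] at h2
  have h3 : (j : ℝ) = k := by linarith
  exact_mod_cast h3

theorem verts_finite (δ : ℝ) (m : ℕ) : (verts δ m).Finite :=
  ((finite_Iio m).image _).union ((finite_Iio m).image _)

theorem verts_ncard {δ : ℝ} (hδ : 0 < δ) {m : ℕ} (hm : 2 ≤ m) : (verts δ m).ncard = 2 * m := by
  unfold verts
  have hpos : ∀ j < m, 0 < (top δ (absc m j)).2 := by
    intro j hj
    have h1 := absc_mem hm hj
    have h2 : absc m j ^ 2 ≤ 1 := by
      rw [← sq_abs]; exact pow_le_one₀ (abs_nonneg _) h1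
    unfold top
    simp only
    have : 0 ≤ δ * (1 - absc m j ^ 2) := mul_nonneg hδ.le (by linarith)
    linarith
  have hinj : Function.Injective (fun j => top δ (absc m j)) := by
    intro j k h
    exact absc_inj hm (congrArg Prod.fst h)
  have hinj2 : Function.Injective (fun j => -top δ (absc m j)) := fun j k h =>
    hinj (neg_injective h)
  rw [ncard_union_eq _ ((finite_Iio m).image _) ((finite_Iio m).image _),
    ncard_image_of_injective _ hinj, ncard_image_of_injective _ hinj2]
  · have : (Iio m).ncard = m := by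
      rw [← Finset.coe_range, ncard_coe_finset, Finset.card_range]
    omega
  · rw [Set.disjoint_left]
    rintro _ ⟨j, hj, rfl⟩ ⟨k, hk, h⟩
    have h1 := hpos j hj
    have h2 := hpos k hk
    have h3 : -(top δ (absc m k)).2 = (top δ (absc m j)).2 := congrArg Prod.snd h
    linarith

theorem convex_lt_union {l : Plane → ℝ} (hadd : ∀ p q, l (p + q) = l p + l q)
    (hsmul : ∀ (a : ℝ) p, l (a • p) = a * l p) (v : Plane) :
    Convex ℝ {w | l w < l v ∨ w = v} := by
  intro x hx y hy a b ha hb hab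
  simp only [mem_ofPred_eq] at hx hy ⊢
  rcases ha.eq_or_lt with rfl | ha
  · have : b = 1 := by linarith
    subst this
    simpa using hy
  rcases hb.eq_or_lt with rfl | hb
  · have : a = 1 := by linarith
    subst this
    simpa using hx
  rw [hadd, hsmul, hsmul]
  rcases hx with hx | rfl
  · left
    have hy' : l y ≤ l v := by
      rcases hy with hy | rfl
      · exact hy.le
      · exact le_rfl
    calc a * l x + b * l y < a * l v + b * l v := by nlinarith
      _ = l v := by rw [← add_mul, hab, one_mul]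
  · rcases hy with hy | rfl
    · left
      calc a * l x + b * l y < a * l x + b * l x := by nlinarith
        _ = l x := by rw [← add_mul, hab, one_mul]
    · right
      rw [← add_smul, hab, one_smul]

theorem mem_extreme {V : Set Plane} {v : Plane} (hv : v ∈ V) {l : Plane → ℝ}
    (hadd : ∀ p q, l (p + q) = l p + l q) (hsmul : ∀ (a : ℝ) p, l (a • p) = a * l p)
    (h : ∀ w ∈ V, l w < l v ∨ w = v) : v ∈ extremePoints ℝ (convexHull ℝ V) := by
  have h1 : convexHull ℝ V ⊆ {w | l w < l v ∨ w = v} :=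
    convexHull_min h (convex_lt_union hadd hsmul v)
  rw [mem_extremePoints]
  refine ⟨subset_convexHull ℝ V hv, ?_⟩
  intro x hx y hy hxy
  obtain ⟨a, b, ha, hb, hab, h2⟩ := hxy
  have h3 : a * l x + b * l y = l v := by rw [← h2, hadd, hsmul, hsmul]
  have hx' := h1 hx
  have hy' := h1 hy
  simp only [mem_ofPred_eq] at hx' hy'
  have hlx : l x ≤ l v := by
    rcases hx' with h | h
    · exact h.le
    · rw [h]
  have hly : l y ≤ l v := by
    rcases hy' with h | h
    · exact h.le
    · rw [h]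
  have h4 : l v = a * l v + b * l v := by rw [← add_mul, hab, one_mul]
  constructor
  · rcases hx' with h | h
    · exfalso
      have : a * l x + b * l y < a * l v + b * l v := by nlinarith
      linarith
    · exact h
  · rcases hy' with h | h
    · exfalso
      have : a * l x + b * l y < a * l v + b * l v := by nlinarith
      linarith
    · exact h

theorem verts_extreme {δ : ℝ} (hδ : 0 < δ) (hδ1 : δ < 1) {m : ℕ} (hm : 2 ≤ m) :
    extremePoints ℝ (convexHull ℝ (verts δ m)) = verts δ m := by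
  apply Subset.antisymm extremePoints_convexHull_subset
  -- the functional for a top vertex
  have key : ∀ j < m, ∀ w ∈ verts δ m,
      2 * δ * absc m j * w.1 + w.2 < 2 * δ * absc m j * (top δ (absc m j)).1 +
        (top δ (absc m j)).2 ∨ w = top δ (absc m j) := by
    intro j hj w hw
    have ha := absc_mem hm hj
    set a := absc m j with hadef
    have ha2 : a ^ 2 ≤ 1 := by rw [← sq_abs]; exact pow_le_one₀ (abs_nonneg _) ha
    rcases hw with ⟨k, hk, rfl⟩ | ⟨k, hk, rfl⟩
    · have hb := absc_mem hm hk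
      set b := absc m k with hbdef
      by_cases hab : b = a
      · right
        show top δ b = top δ a
        rw [hab]
      · left
        unfold top
        simp only
        have h1 : 0 < (b - a) ^ 2 := by
          have : b - a ≠ 0 := sub_ne_zero.2 hab
          positivity
        nlinarith [mul_pos hδ h1]
    · left
      have hb := absc_mem hm hk
      set b := absc m k with hbdef
      have hb2 : b ^ 2 ≤ 1 := by rw [← sq_abs]; exact pow_le_one₀ (abs_nonneg _) hb
      unfold top
      simp only [Prod.fst_neg, Prod.snd_neg]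
      have h1 : -(a * b) ≤ 1 := by
        nlinarith [sq_nonneg (a + b)]
      nlinarith [mul_pos hδ hδ, sq_nonneg a, mul_nonneg hδ.le (sq_nonneg a),
        mul_nonneg hδ.le (sub_nonneg.2 hb2), mul_le_mul_of_nonneg_left h1 hδ.le]
  rintro v (⟨j, hj, rfl⟩ | ⟨j, hj, rfl⟩)
  · exact mem_extreme (l := fun w => 2 * δ * absc m j * w.1 + w.2) (Or.inl ⟨j, hj, rfl⟩)
      (fun p q => by simp only [Prod.fst_add, Prod.snd_add]; ring)
      (fun a p => by simp only [Prod.smul_fst, Prod.smul_snd, smul_eq_mul]; ring) (key j hj)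
  · refine mem_extreme (l := fun w => -(2 * δ * absc m j * w.1 + w.2)) (Or.inr ⟨j, hj, rfl⟩)
      (fun p q => by simp only [Prod.fst_add, Prod.snd_add]; ring)
      (fun a p => by simp only [Prod.smul_fst, Prod.smul_snd, smul_eq_mul]; ring) ?_
    intro w hw
    have hw' : -w ∈ verts δ m := by
      rcases hw with ⟨k, hk, rfl⟩ | ⟨k, hk, rfl⟩
      · exact Or.inr ⟨k, hk, rfl⟩
      · left
        exact ⟨k, hk, (neg_neg _).symm⟩
    rcases key j hj (-w) hw' with h | h
    · left
      simp only [Prod.fst_neg, Prod.snd_neg] at h ⊢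
      linarith
    · right
      show w = -top δ (absc m j)
      rw [← h, neg_neg]

/-- the polygon near the square -/
def poly (δ : ℝ) (m : ℕ) : Set Plane := interior (convexHull ℝ (verts δ m))

theorem square_subset {δ : ℝ} {m : ℕ} (hm : 2 ≤ m) :
    Icc (-1 : ℝ) 1 ×ˢ Icc (-1 : ℝ) 1 ⊆ convexHull ℝ (verts δ m) := by
  have hm1 : (2 : ℝ) ≤ m := by exact_mod_cast hm
  have h0 : absc m 0 = -1 := by unfold absc; simp
  have h1 : absc m (m - 1) = 1 := by
    unfold absc
    rw [Nat.cast_sub (by omega), Nat.cast_one, mul_div_assoc, div_self (by linarith)]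
    norm_num
  have hc : ({-1, 1} : Set ℝ) ×ˢ ({-1, 1} : Set ℝ) ⊆ verts δ m := by
    rintro ⟨x, y⟩ ⟨hx, hy⟩
    simp only [mem_insert_iff, mem_singleton_iff] at hx hy
    rcases hx with rfl | rfl <;> rcases hy with rfl | rfl
    · right
      refine ⟨m - 1, by simp only [mem_Iio]; omega, ?_⟩
      show -top δ (absc m (m - 1)) = _
      rw [h1]
      unfold top
      simp
    · left
      refine ⟨0, by simp only [mem_Iio]; omega, ?_⟩
      show top δ (absc m 0) = _
      rw [h0]
      unfold top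
      simp
    · right
      refine ⟨0, by simp only [mem_Iio]; omega, ?_⟩
      show -top δ (absc m 0) = _
      rw [h0]
      unfold top
      simp
    · left
      refine ⟨m - 1, by simp only [mem_Iio]; omega, ?_⟩
      show top δ (absc m (m - 1)) = _
      rw [h1]
      unfold top
      simp
  have h2 := convexHull_mono (𝕜 := ℝ) hc
  rw [convexHull_prod, convexHull_pair, segment_eq_Icc (by norm_num)] at h2
  exact h2

theorem hull_subset {δ : ℝ} (hδ : 0 < δ) {m : ℕ} (hm : 2 ≤ m) :
    convexHull ℝ (verts δ m) ⊆ Icc (-(1 + δ)) (1 + δ) ×ˢ Icc (-(1 + δ)) (1 + δ) := by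
  apply convexHull_min _ ((convex_Icc _ _).prod (convex_Icc _ _))
  have key : ∀ j < m, |(top δ (absc m j)).1| ≤ 1 + δ ∧ |(top δ (absc m j)).2| ≤ 1 + δ := by
    intro j hj
    have h1 := absc_mem hm hj
    have h2 : absc m j ^ 2 ≤ 1 := by
      rw [← sq_abs]; exact pow_le_one₀ (abs_nonneg _) h1
    unfold top
    simp only
    constructor
    · linarith
    · have h3 : 0 ≤ δ * (1 - absc m j ^ 2) := mul_nonneg hδ.le (by linarith)
      rw [abs_of_nonneg (by linarith)]
      nlinarith [sq_nonneg (absc m j)]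
  rintro v (⟨j, hj, rfl⟩ | ⟨j, hj, rfl⟩)
  · exact ⟨abs_le.1 (key j hj).1, abs_le.1 (key j hj).2⟩
  · have h1 := key j hj
    refine ⟨abs_le.1 ?_, abs_le.1 ?_⟩
    · show |-(top δ (absc m j)).1| ≤ _
      rw [abs_neg]; exact h1.1
    · show |-(top δ (absc m j)).2| ≤ _
      rw [abs_neg]; exact h1.2

theorem closure_poly {δ : ℝ} {m : ℕ} (hm : 2 ≤ m) :
    closure (poly δ m) = convexHull ℝ (verts δ m) := by
  unfold poly
  have h1 : (interior (convexHull ℝ (verts δ m))).Nonempty := by
    refine ⟨0, ?_⟩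
    apply interior_mono (square_subset hm)
    rw [interior_prod_eq, interior_Icc]
    exact ⟨⟨by norm_num, by norm_num⟩, ⟨by norm_num, by norm_num⟩⟩
  rw [(convex_convexHull ℝ _).closure_interior_eq_closure_of_nonempty_interior h1]
  have h2 : IsCompact (convexHull ℝ (verts δ m)) := (verts_finite δ m).isCompact_convexHull ℝ
  exact h2.isClosed.closure_eq

theorem poly_symBody {δ : ℝ} {m : ℕ} (hm : 2 ≤ m) : IsSymBody (poly δ m) := by
  constructor
  · refine ⟨0, ?_⟩
    apply interior_mono (square_subset hm)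
    rw [interior_prod_eq, interior_Icc]
    exact ⟨⟨by norm_num, by norm_num⟩, ⟨by norm_num, by norm_num⟩⟩
  · exact isOpen_interior
  · have h2 : IsCompact (convexHull ℝ (verts δ m)) := (verts_finite δ m).isCompact_convexHull ℝ
    exact h2.isBounded.subset interior_subset
  · exact (convex_convexHull ℝ _).interior
  · have h1 : -verts δ m = verts δ m := by
      ext w
      rw [Set.mem_neg]
      have key : ∀ w, w ∈ verts δ m → -w ∈ verts δ m := by
        rintro w (⟨k, hk, rfl⟩ | ⟨k, hk, rfl⟩)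
        · exact Or.inr ⟨k, hk, rfl⟩
        · exact Or.inl ⟨k, hk, (neg_neg _).symm⟩
      constructor
      · intro h
        have := key _ h
        rwa [neg_neg] at this
      · exact key w
    have h2 : -convexHull ℝ (verts δ m) = convexHull ℝ (verts δ m) := by
      rw [← convexHull_neg, h1]
    have h3 : -poly δ m = poly δ m := by
      unfold poly
      have h4 := (Homeomorph.neg Plane).preimage_interior (convexHull ℝ (verts δ m))
      have h5 : (Homeomorph.neg Plane) ⁻¹' (convexHull ℝ (verts δ m)) =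
          convexHull ℝ (verts δ m) := h2
      rw [h5] at h4
      exact h4
    intro x hx
    rw [← h3] at hx
    exact hx

theorem poly_isPolygon {δ : ℝ} (hδ : 0 < δ) (hδ1 : δ < 1) {m : ℕ} (hm : 2 ≤ m) :
    IsPolygon (2 * m) (poly δ m) := by
  refine ⟨poly_symBody hm, ?_, ?_⟩
  · rw [closure_poly hm, verts_extreme hδ hδ1 hm]
    exact verts_finite δ m
  · rw [closure_poly hm, verts_extreme hδ hδ1 hm]
    exact verts_ncard hδ hm

theorem volume_ell1 : volume {p : Plane | |p.1| + |p.2| < 1} ≤ 2 := by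
  have h1 : {p : Plane | |p.1| + |p.2| < 1} ⊆
      regionBetween (fun x => -(1 - |x|)) (fun x => 1 - |x|) (Ioc (-1) 1) := by
    rintro ⟨x, y⟩ h
    simp only [mem_ofPred_eq] at h
    have hx : |x| < 1 := by linarith [abs_nonneg y]
    exact ⟨⟨(abs_lt.1 hx).1, (abs_lt.1 hx).2.le⟩, abs_lt.1 (by linarith)⟩
  refine (measure_mono h1).trans ?_
  have hcont : Continuous fun x : ℝ => 1 - |x| := by fun_prop
  have hi : IntegrableOn (fun x : ℝ => 1 - |x|) (Ioc (-1) 1) :=
    (hcont.continuousOn.integrableOn_Icc).mono_set Ioc_subset_Icc_self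
  have hi' : IntegrableOn (fun x : ℝ => -(1 - |x|)) (Ioc (-1) 1) := hi.neg
  rw [Measure.volume_eq_prod, volume_regionBetween_eq_integral hi' hi measurableSet_Ioc]
  · have h2 : ∫ y in Ioc (-1 : ℝ) 1,
        ((fun x : ℝ => 1 - |x|) - fun x : ℝ => -(1 - |x|) : ℝ → ℝ) y = 2 := by
      have h3 : (fun y : ℝ => ((fun x : ℝ => 1 - |x|) - fun x : ℝ => -(1 - |x|) : ℝ → ℝ) y) =
          fun y => 2 * (1 - |y|) := by
        ext y; simp only [Pi.sub_apply]; ring
      rw [h3, ← intervalIntegral.integral_of_le (by norm_num),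
        ← intervalIntegral.integral_add_adjacent_intervals (b := 0)
          ((hcont.const_mul 2).intervalIntegrable _ _)
          ((hcont.const_mul 2).intervalIntegrable _ _)]
      have h4 : ∫ y in (-1 : ℝ)..0, 2 * (1 - |y|) = ∫ y in (-1 : ℝ)..0, (2 + 2 * y) := by
        apply intervalIntegral.integral_congr
        intro y hy
        rw [uIcc_of_le (by norm_num)] at hy
        simp only
        rw [abs_of_nonpos hy.2]
        ring
      have h5 : ∫ y in (0 : ℝ)..1, 2 * (1 - |y|) = ∫ y in (0 : ℝ)..1, (2 - 2 * y) := by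
        apply intervalIntegral.integral_congr
        intro y hy
        rw [uIcc_of_le (by norm_num)] at hy
        simp only
        rw [abs_of_nonneg hy.1]
        ring
      rw [h4, h5, intervalIntegral.integral_add (by simp)
          ((by fun_prop : Continuous fun y : ℝ => 2 * y).intervalIntegrable _ _),
        intervalIntegral.integral_sub (by simp)
          ((by fun_prop : Continuous fun y : ℝ => 2 * y).intervalIntegrable _ _)]
      have h6 : ∀ a b : ℝ, ∫ x in a..b, 2 * x = b ^ 2 - a ^ 2 := by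
        intro a b
        rw [intervalIntegral.integral_const_mul, integral_id]
        ring
      rw [h6, h6, intervalIntegral.integral_const, intervalIntegral.integral_const]
      norm_num
    rw [h2]
    norm_num
  · intro x hx
    have : |x| ≤ 1 := abs_le.2 ⟨hx.1.le, hx.2⟩
    linarith

theorem polar_poly {δ : ℝ} (hδ : 0 < δ) {m : ℕ} (hm : 2 ≤ m) :
    polarSet (poly δ m) ⊆ {p : Plane | |p.1| + |p.2| < 1} := by
  intro p hp
  unfold polarSet at hp
  simp only [mem_ofPred_eq] at hp ⊢
  refine lt_of_le_of_lt ?_ hp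
  have hb : BddAbove ((fun y => dot p y) '' poly δ m) := by
    refine ⟨(|p.1| + |p.2|) * (1 + δ), ?_⟩
    rintro _ ⟨y, hy, rfl⟩
    have h1 := hull_subset hδ hm (interior_subset hy)
    have h2 : |y.1| ≤ 1 + δ := abs_le.2 h1.1
    have h3 : |y.2| ≤ 1 + δ := abs_le.2 h1.2
    unfold dot
    calc p.1 * y.1 + p.2 * y.2 ≤ |p.1 * y.1| + |p.2 * y.2| :=
          add_le_add (le_abs_self _) (le_abs_self _)
      _ = |p.1| * |y.1| + |p.2| * |y.2| := by rw [abs_mul, abs_mul]
      _ ≤ |p.1| * (1 + δ) + |p.2| * (1 + δ) := by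
          apply add_le_add <;> apply mul_le_mul_of_nonneg_left _ (abs_nonneg _) <;> assumption
      _ = _ := by ring
  have h1 : poly δ m ⊆ {y | dot p y ≤ polarNorm (poly δ m) p} := fun y hy =>
    le_csSup hb ⟨y, hy, rfl⟩
  have h2 : IsClosed {y | dot p y ≤ polarNorm (poly δ m) p} := by
    unfold dot
    exact isClosed_le (by fun_prop) continuous_const
  have h3 := closure_minimal h1 h2
  rw [closure_poly hm] at h3
  have h4 : ((SignType.sign p.1 : ℝ), (SignType.sign p.2 : ℝ)) ∈
      Icc (-1 : ℝ) 1 ×ˢ Icc (-1 : ℝ) 1 := by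
    have h5 : ∀ x : ℝ, ((SignType.sign x : SignType) : ℝ) ∈ Icc (-1 : ℝ) 1 := by
      intro x
      rcases lt_trichotomy x 0 with h | h | h
      · rw [sign_neg h]; simp
      · rw [h]; simp
      · rw [sign_pos h]; simp
    exact ⟨h5 _, h5 _⟩
  have h6 := h3 (square_subset hm h4)
  simp only [mem_ofPred_eq] at h6
  unfold dot at h6
  simp only at h6
  rw [self_mul_sign, self_mul_sign] at h6
  exact h6

theorem J_poly_le {δ : ℝ} (hδ : 0 < δ) {m : ℕ} (hm : 2 ≤ m) :
    J disk (poly δ m) ≤ ENNReal.ofReal (8 * (23 / 25) * (1 + δ) / 2.9627) * 2 ^ (1 / 2 : ℝ) := by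
  unfold J
  apply mul_le_mul'
  · have hvol := volume_testSet
    have hpos : 0 < volume (testSet (23 / 25)) :=
      lt_of_lt_of_le (ENNReal.ofReal_pos.2 (by norm_num)) hvol
    have h1 : cheeger (poly δ m) disk ≤
        perimeter (poly δ m) (testSet (23 / 25)) / volume (testSet (23 / 25)) :=
      iInf₂_le_of_le (testSet (23 / 25))
        ⟨(testSet_isOpen _).measurableSet, fun p hp => hp.1, hpos⟩ le_rfl
    have h2 : perimeter (poly δ m) (testSet (23 / 25)) ≤
        ENNReal.ofReal (8 * (23 / 25) * (1 + δ)) := by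
      apply perimeter_le _ (by norm_num)
      intro p hp
      rw [closure_poly hm] at hp
      have := hull_subset hδ hm hp
      exact ⟨abs_le.2 this.1, abs_le.2 this.2⟩
    calc cheeger (poly δ m) disk ≤ _ := h1
      _ ≤ ENNReal.ofReal (8 * (23 / 25) * (1 + δ)) / ENNReal.ofReal 2.9627 :=
          ENNReal.div_le_div h2 hvol
      _ = _ := (ENNReal.ofReal_div_of_pos (by norm_num)).symm
  · exact ENNReal.rpow_le_rpow ((measure_mono (polar_poly hδ hm)).trans volume_ell1) (by norm_num)

/-- **Regular polygons do not minimise `J_B`.** For every even `n ≥ 24` there is a centrally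
symmetric convex polygon `P` with exactly `n` sides such that `J_B[P] < J_B[P*_n]`. -/
theorem result : ∀ n : ℕ, Even n → 24 ≤ n →
    ∃ P : Set Plane, IsPolygon n P ∧ J disk P < J disk (regularPolygon n) := by
  intro n hn hn24
  obtain ⟨m, hm⟩ := hn
  have hm2 : 2 ≤ m := by omega
  have hnm : n = 2 * m := by omega
  refine ⟨poly (1 / 10000) m, ?_, ?_⟩
  · rw [hnm]
    exact poly_isPolygon (by norm_num) (by norm_num) hm2
  · refine (J_poly_le (by norm_num) hm2).trans_lt
      (lt_of_lt_of_le ?_ (J_regular_ge (by omega) (ε := 1 / 100000) (by norm_num)))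
    have hn' : (24 : ℝ) ≤ n := by exact_mod_cast hn24
    have hx : Real.pi / n ≤ 3.1416 / 24 := by
      have h1 : Real.pi ≤ 3.1416 := Real.pi_lt_d4.le
      exact div_le_div₀ (by norm_num) h1 (by norm_num) hn'
    have hx0 : 0 ≤ Real.pi / n := by positivity
    have hcos : 1 - (3.1416 / 24) ^ 2 / 2 ≤ Real.cos (Real.pi / n) := by
      refine le_trans ?_ (Real.one_sub_sq_div_two_le_cos)
      have : (Real.pi / n) ^ 2 ≤ (3.1416 / 24) ^ 2 := pow_le_pow_left₀ hx0 hx 2
      linarith
    have hcos2 : (1 - (3.1416 / 24) ^ 2 / 2) ^ 2 ≤ Real.cos (Real.pi / n) ^ 2 :=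
      pow_le_pow_left₀ (by norm_num) hcos 2
    have hsq : ∀ {a b : ℝ}, 0 ≤ a → 0 ≤ b →
        ENNReal.ofReal a * ENNReal.ofReal b ^ (1 / 2 : ℝ) = ENNReal.ofReal (a * Real.sqrt b) := by
      intro a b ha hb
      rw [ENNReal.ofReal_rpow_of_nonneg hb (by norm_num), ← Real.sqrt_eq_rpow,
        ENNReal.ofReal_mul ha]
    have h2 : (2 : ℝ≥0∞) = ENNReal.ofReal 2 := by norm_num
    rw [h2, hsq (by norm_num) (by norm_num), hsq (by norm_num) (by positivity)]
    have hpos : 0 < 2 * (1 / (1 + 1 / 100000 : ℝ)) *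
        Real.sqrt (Real.pi * Real.cos (Real.pi / n) ^ 2) := by
      apply mul_pos (by norm_num)
      apply Real.sqrt_pos.2
      apply mul_pos Real.pi_pos
      apply lt_of_lt_of_le _ hcos2
      norm_num
    rw [ENNReal.ofReal_lt_ofReal_iff hpos]
    apply lt_of_pow_lt_pow_left₀ 2 hpos.le
    rw [mul_pow, mul_pow, Real.sq_sqrt (by norm_num), Real.sq_sqrt (by positivity)]
    have hπ := Real.pi_gt_d4
    have h3 : (3.1415 : ℝ) * (1 - (3.1416 / 24) ^ 2 / 2) ^ 2 ≤
        Real.pi * Real.cos (Real.pi / n) ^ 2 :=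
      mul_le_mul hπ.le hcos2 (by positivity) Real.pi_pos.le
    have h4 : (2 * (1 / (1 + 1 / 100000 : ℝ))) ^ 2 * ((3.1415 : ℝ) *
        (1 - (3.1416 / 24) ^ 2 / 2) ^ 2) ≤ (2 * (1 / (1 + 1 / 100000 : ℝ))) ^ 2 *
        (Real.pi * Real.cos (Real.pi / n) ^ 2) :=
      mul_le_mul_of_nonneg_left h3 (by positivity)
    refine lt_of_lt_of_le ?_ h4
    norm_num

end Pool.Agent.Results.MP_4eea03_an.RegularPolygonNotMinimal
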